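import Pool.Agent.Y152.RP.Stm

/-!
# Job RP-UNIT: bad means unit at the finite places (helper475)
-/

set_option autoImplicit false

namespace Pool.Agent.Y475.RP

open Polynomial NumberField IsDedekindDomain Pool.Agent.Y152 Pool.Agent.Y152.RP

variable {K : Type} [Field K] [NumberField K]

theorem fv_mul (v : HeightOneSpectrum (𝓞 K)) (x y : K) : fv v (x * y) = fv v x * fv v y :=
  map_mul (FinitePlace.mk v) x y

theorem fv_one (v : HeightOneSpectrum (𝓞 K)) : fv v (1 : K) = 1 := map_one (FinitePlace.mk v)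

theorem fv_zero (v : HeightOneSpectrum (𝓞 K)) : fv v (0 : K) = 0 := map_zero (FinitePlace.mk v)

theorem fv_div (v : HeightOneSpectrum (𝓞 K)) (x y : K) : fv v (x / y) = fv v x / fv v y :=
  map_div₀ (FinitePlace.mk v) x y

theorem fv_nonneg (v : HeightOneSpectrum (𝓞 K)) (x : K) : 0 ≤ fv v x := by
  rcases eq_or_ne x 0 with rfl | h
  · rw [fv_zero]
  · exact (FinitePlace.pos_iff.2 h).le

theorem fv_neg (v : HeightOneSpectrum (𝓞 K)) (x : K) : fv v (-x) = fv v x := by
  have h1 : fv v (-1 : K) * fv v (-1 : K) = 1 := by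
    rw [← fv_mul, neg_one_mul, neg_neg, fv_one]
  have h2 : fv v (-1 : K) = 1 := by
    have := fv_nonneg v (-1 : K)
    nlinarith
  rw [← neg_one_mul, fv_mul, h2, one_mul]

theorem fv_add_le (v : HeightOneSpectrum (𝓞 K)) (x y : K) : fv v (x + y) ≤ max (fv v x) (fv v y) :=
  FinitePlace.add_le (FinitePlace.mk v) x y

theorem fv_sub_le (v : HeightOneSpectrum (𝓞 K)) (x y : K) :
    fv v (x - y) ≤ max (fv v x) (fv v y) := by
  rw [sub_eq_add_neg, ← fv_neg v y]
  exact fv_add_le v x (-y)

theorem fv_nat_le (v : HeightOneSpectrum (𝓞 K)) (n : ℕ) : fv v (n : K) ≤ 1 := by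
  induction n with
  | zero => rw [Nat.cast_zero, fv_zero]; exact zero_le_one
  | succ n ih =>
    rw [Nat.cast_succ]
    exact (fv_add_le v _ _).trans (max_le ih (fv_one v).le)

theorem fv_int_le (v : HeightOneSpectrum (𝓞 K)) (z : ℤ) : fv v (z : K) ≤ 1 := by
  rcases Int.eq_nat_or_neg z with ⟨n, rfl | rfl⟩
  · rw [Int.cast_natCast]
    exact fv_nat_le v n
  · rw [Int.cast_neg, Int.cast_natCast, fv_neg]
    exact fv_nat_le v n

/-- smooth natural numbers are units -/
theorem nat_unit {D : ℕ} {w : HeightOneSpectrum (𝓞 K)} (hw : Away D w) (n : ℕ) (hn : n ≠ 0)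
    (h : ∀ p : ℕ, p.Prime → D < p → ¬ p ∣ n) : fv w (n : K) = 1 := by
  induction n using Nat.strong_induction_on with
  | _ n ih =>
    by_cases h1 : n = 1
    · rw [h1, Nat.cast_one, fv_one]
    · have hp := Nat.minFac_prime h1
      obtain ⟨m, hm⟩ := Nat.minFac_dvd n
      obtain ⟨p, hpd⟩ : ∃ p, p = n.minFac := ⟨_, rfl⟩
      rw [← hpd] at hp hm
      have hm0 : m ≠ 0 := by
        rintro rfl
        exact hn (by rw [hm, mul_zero])
      have hlt : m < n := by
        have h2 := hp.two_le
        have h3 : 0 < m := Nat.pos_of_ne_zero hm0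
        rw [hm]
        nlinarith
      have hpD : p ≤ D := by
        by_contra hlt
        exact h p hp (not_le.1 hlt) (hm ▸ dvd_mul_right p m)
      rw [hm, Nat.cast_mul, fv_mul, hw p hp hpD, one_mul]
      exact ih m hlt hm0 fun q hq hqD hqm => h q hq hqD (hm ▸ hqm.mul_left p)

theorem int_unit {D : ℕ} {w : HeightOneSpectrum (𝓞 K)} (hw : Away D w) (z : ℤ)
    (h : Smo D z) : fv w (z : K) = 1 := by
  have hz : z ≠ 0 := by
    rintro rfl
    obtain ⟨p, hp1, hp2⟩ := Nat.exists_infinite_primes (D + 1)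
    exact h p hp2 (by omega) (dvd_zero _)
  have h1 : fv w ((z.natAbs : ℕ) : K) = 1 := nat_unit hw z.natAbs (Int.natAbs_ne_zero.2 hz)
    fun p hp hpD hd => h p hp hpD (Int.natCast_dvd.2 hd)
  rcases Int.natAbs_eq z with h2 | h2
  · rw [h2, Int.cast_natCast]
    exact h1
  · rw [h2, Int.cast_neg, Int.cast_natCast, fv_neg]
    exact h1

theorem pow_sub (w : HeightOneSpectrum (𝓞 K)) (x : K) (hx : fv w x ≤ 1) (n : ℕ) :
    fv w (x ^ n - 1) ≤ fv w (x - 1) := by
  induction n with
  | zero => rw [pow_zero, sub_self, fv_zero]; exact fv_nonneg w _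
  | succ n ih =>
    have e : x ^ (n + 1) - 1 = x * (x ^ n - 1) + (x - 1) := by ring
    rw [e]
    refine (fv_add_le w _ _).trans (max_le ?_ le_rfl)
    rw [fv_mul]
    have h1 := fv_nonneg w (x ^ n - 1)
    have h2 := fv_nonneg w x
    nlinarith

theorem poly_sub (w : HeightOneSpectrum (𝓞 K)) (x : K) (hx : fv w x ≤ 1) (G : ℤ[X]) :
    fv w (aeval x G - aeval (1 : K) G) ≤ fv w (x - 1) := by
  induction G using Polynomial.induction_on' with
  | add p q hp hq =>
    have e : aeval x (p + q) - aeval (1 : K) (p + q) =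
        (aeval x p - aeval (1 : K) p) + (aeval x q - aeval (1 : K) q) := by
      rw [map_add, map_add]
      ring
    rw [e]
    exact (fv_add_le w _ _).trans (max_le hp hq)
  | monomial n a =>
    have e : aeval x (monomial n a) - aeval (1 : K) (monomial n a) = (a : K) * (x ^ n - 1) := by
      rw [aeval_monomial, aeval_monomial]
      simp only [algebraMap_int_eq, eq_intCast, one_pow]
      ring
    rw [e, fv_mul]
    have h1 := pow_sub w x hx n
    have h2 := fv_int_le w a
    have h3 := fv_nonneg w (x ^ n - 1)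
    have h4 := fv_nonneg w (a : K)
    nlinarith

theorem unit : UnitStm := by
  intro K _ _ φ D κ b hb hbad w hw
  obtain ⟨G, -, hG, hsm⟩ := hbad
  -- the rational number is a unit
  have hb0 : b ≠ 0 := by
    rintro rfl
    obtain ⟨p, hp1, hp2⟩ := Nat.exists_infinite_primes (D + 1)
    exact (hb p hp2 (by omega)).1 (dvd_zero _)
  have hbu : fv w (b : K) = 1 := by
    have h1 : fv w ((b.num : ℤ) : K) = 1 := int_unit hw b.num fun p hp hpD => (hb p hp hpD).1
    have h2 : fv w ((b.den : ℕ) : K) = 1 := nat_unit hw b.den b.den_ne_zero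
      fun p hp hpD => (hb p hp hpD).2
    rw [Rat.cast_def, fv_div, h1, h2, div_one]
  have hbK : (b : K) ≠ 0 := by exact_mod_cast hb0
  rcases le_or_gt (fv w κ) 1 with hκ | hκ
  · rw [max_eq_left hκ]
    obtain ⟨x, hx⟩ : ∃ x : K, x = κ / b := ⟨_, rfl⟩
    have hx1 : fv w x ≤ 1 := by
      rw [hx, fv_div, hbu, div_one]
      exact hκ
    have e : (b : K) - κ = b * (1 - x) := by
      rw [hx]
      field_simp
    rw [e, fv_mul, hbu, one_mul]
    have hle : fv w (1 - x) ≤ 1 := by
      refine (fv_sub_le w _ _).trans (max_le (fv_one w).le hx1)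
    refine le_antisymm hle ?_
    by_contra hlt
    rw [not_le] at hlt
    have hGx : aeval x G = 0 := by
      apply φ.injective
      have h1 : φ x = φ κ / (b : ℂ) := by
        rw [hx, map_div₀, map_ratCast]
      have h2 : φ (aeval x G) = aeval (φ x) G := by
        have h3 := Polynomial.aeval_algHom_apply (φ.toIntAlgHom) x G
        exact h3.symm
      rw [h2, h1, hG, map_zero]
    have hG1 : aeval (1 : K) G = ((G.eval 1 : ℤ) : K) := by
      have h3 := Polynomial.aeval_algebraMap_apply K (1 : ℤ) G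
      rw [map_one] at h3
      rw [h3]
      simp
    have h4 := poly_sub w x hx1 G
    rw [hGx, zero_sub, fv_neg, hG1, int_unit hw _ hsm] at h4
    have h5 : fv w (x - 1) = fv w (1 - x) := by
      rw [← fv_neg, neg_sub]
    rw [h5] at h4
    linarith
  · rw [max_eq_right hκ.le]
    apply le_antisymm
    · refine (fv_sub_le w _ _).trans (max_le ?_ le_rfl)
      rw [hbu]
      exact hκ.le
    · have e : κ = (b : K) - ((b : K) - κ) := by ring
      have h1 : fv w κ ≤ max (fv w (b : K)) (fv w ((b : K) - κ)) := by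
        conv_lhs => rw [e]
        exact fv_sub_le w _ _
      rw [hbu] at h1
      rcases le_max_iff.1 h1 with h2 | h2
      · exact absurd h2 (not_le.2 hκ)
      · exact h2

end Pool.Agent.Y475.RP
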